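import Pool.Agent.Lib.MP_7cad78_nt.J.Fin

namespace Pool.Agent.Lib.MP_7cad78_nt.Old.MultiquadraticRankZero

open Filter Pool.Agent.Lib.MP_7cad78_nt Pool.Agent.Lib.MP_7cad78_nt.PR

theorem result (K : Type) [Field K] [NumberField K] [IsGalois ℚ K] [DecidableEq K]
    (h : ∀ σ : K ≃ₐ[ℚ] K, σ * σ = 1) : ∃ c : ℝ, 0 < c ∧ ∀ᶠ X : ℝ in atTop,
      c ≤ ({p ∈ split X | Module.rank ℤ ((curve p).baseChange K).Point = 0}.ncard : ℝ) / (split X).ncard :=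
  mq_pos K h

end Pool.Agent.Lib.MP_7cad78_nt.Old.MultiquadraticRankZero
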